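import Mathlib
import Pool.Agent.Lib.MP_7eef47_al.Defs
import Pool.Agent.Lib.MP_7eef47_al.Cyclic

set_option autoImplicit false

namespace Pool.Agent.Lib.MP_7eef47_al.Old.CyclicCounterexample

open Pool.Agent.Lib.MP_7eef47_al

/-- There is a torsion free hierarchically hyperbolic group with an infinite cyclic, malnormal
subgroup which is a convex geodesic line of the Cayley graph and is not strongly quasiconvex. -/
theorem result :
    ∃ (G : Type) (_ : Group G) (S : Set G), S.Finite ∧ Subgroup.closure S = ⊤ ∧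
      IsHHG S ∧ (∀ g : G, IsOfFinOrder g → g = 1) ∧
      ∃ H : Subgroup G, H.FG ∧ AlmostMalnormal H ∧ ¬ StronglyQuasiconvex S H ∧
        (∃ h : G, H = Subgroup.zpowers h ∧
          ∀ m n : ℤ, wordDist S (h ^ m) (h ^ n) = |(m : ℝ) - (n : ℝ)|) ∧
        (∀ g : G, g ∉ H → ∀ x ∈ H, g⁻¹ * x * g ∈ H → x = 1) ∧
        ∀ x ∈ H, ∀ y ∈ H, ∀ z : G,
          wordDist S x z + wordDist S z y = wordDist S x y → z ∈ H :=
  ⟨Lam, inferInstance, gensL, gensL_finite, prodL.closure_eq_top, prodL.isHHG, Lam_torsionFree,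
    Subgroup.zpowers hh,
    (Subgroup.fg_iff _).mpr ⟨{hh}, (Subgroup.zpowers_eq_closure hh).symm, Set.finite_singleton hh⟩,
    fun g hg => (Set.finite_singleton 1).subset fun x hx => hh_malnormal g hg x hx.1 hx.2,
    hh_not_sqc, ⟨hh, rfl, wordDist_hh⟩, hh_malnormal, hh_convex⟩

end Pool.Agent.Lib.MP_7eef47_al.Old.CyclicCounterexample
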