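import Mathlib
import Pool.Agent.Lib.MP_7eef47_al.Defs
import Pool.Agent.Lib.MP_7eef47_al.Main

set_option autoImplicit false

namespace Pool.Agent.Lib.MP_7eef47_al.Old.LatticeCounterexample

open Pool.Agent.Lib.MP_7eef47_al

/-- There is a hierarchically hyperbolic group with a finitely generated almost malnormal subgroup
that is not strongly quasiconvex. -/
theorem result :
    ∃ (G : Type) (_ : Group G) (S : Set G), S.Finite ∧ Subgroup.closure S = ⊤ ∧
      IsHHG S ∧
      ∃ H : Subgroup G, H.FG ∧ AlmostMalnormal H ∧ ¬ StronglyQuasiconvex S H :=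
  ⟨Gam, instGroupGam, gens, gens_finite, prodData.closure_eq_top, prodData.isHHG, Hsub, Hsub_fg,
    Hsub_malnormal, Hsub_not_sqc⟩

end Pool.Agent.Lib.MP_7eef47_al.Old.LatticeCounterexample
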